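import Pool.Agent.Lib.MP_162bbe_gt.Ad.Defs

/-! The condition on the field of definition, with the root discriminant. -/

namespace Pool.Agent.Lib.MP_162bbe_gt.Mv

open Module NumberField IntermediateField Pool.Agent.Lib.MP_162bbe_gt.Ad

variable {r : ℕ} {g : Fin r → Type} [∀ i, LieRing (g i)] [∀ i, LieAlgebra ℂ (g i)]
  {G : Type} [Group G]

/-- The normal closure of `F` has a solvable Galois group, or degree at most `[F : ℚ] ^ m`, or
each subfield `k` such that all extensions to `F` of the restriction of some `s ∈ S` lie in `S` has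
root discriminant at least `[F : ℚ] / C` or `j ≤ m` distinct embeddings with a small compositum. -/
def Mild (m a : ℕ) (C : ℝ) (F : Type) [Field F] [NumberField F] (S : Set (F →+* ℂ)) : Prop :=
  Group.IsSolvable (normalClosure ℚ F ℂ ≃ₐ[ℚ] normalClosure ℚ F ℂ) ∨
    finrank ℚ (normalClosure ℚ F ℂ) ≤ finrank ℚ F ^ m ∨
    ∀ s ∈ S, ∀ k : IntermediateField ℚ F, (∀ t : F →+* ℂ, (∀ x ∈ k, t x = s x) → t ∈ S) →
      (finrank ℚ F : ℝ) ≤ C * rootDiscr k ∨
        ∃ (j : ℕ) (τ : Fin j → k →+* ℂ), 1 ≤ j ∧ j ≤ m ∧ Function.Injective τ ∧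
          Few a C (finrank ℚ F) j τ

/-- `Γ` is arithmetic and its field of definition satisfies `Mild` for the non-compact places. -/
def MildArith (h : ∀ i, Submodule ℝ (g i)) (π : ∀ i, G →* End ℂ (g i)) (m a : ℕ) (C : ℝ)
    (Γ : Subgroup G) : Prop :=
  ∃ (k L : Type) (_ : Field k) (_ : NumberField k) (_ : LieRing L) (_ : LieAlgebra k L)
    (X : Arith h π Γ k L), Mild m a C k {s | ∃ i, InfinitePlace.mk s = InfinitePlace.mk (X.σ i)}

end Pool.Agent.Lib.MP_162bbe_gt.Mv
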