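import Pool.Agent.Lib.MP_162bbe_gt.Ct.Energy

set_option autoImplicit false

/-! Upper and lower bounds for discriminants and resultants of algebraic integers. -/

namespace Pool.Agent.Lib.MP_162bbe_gt.Mv

open Finset Module NumberField Polynomial

lemma upper {ι : Type} [Fintype ι] [Nonempty ι] (v : ι → ℂ) (hv : Function.Injective v) {m : ℕ}
    (hm : #{i | ¬ ‖v i‖ ≤ 1} ≤ m) (h2 : ∀ i, ‖v i‖ ≤ 2) :
    ∑ i, ∑ j, Real.log ‖v i - v j‖ ≤ Fintype.card ι *
      (Real.log (2 * Fintype.card ι) + 1 + 2 * m * Real.log 4) := by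
  classical
  set n : ℝ := ((Fintype.card ι : ℕ) : ℝ) with hn
  have n1 : (1 : ℝ) ≤ n := by rw [hn]; exact_mod_cast Fintype.card_pos
  have hL : 0 ≤ Real.log 4 := Real.log_nonneg (by norm_num)
  have h1 : ∀ i j, Real.log ‖v i - v j‖ ≤ Real.log 4 := fun i j => by
    rcases (norm_nonneg (v i - v j)).eq_or_lt with h | h
    · rw [← h, Real.log_zero]; exact hL
    · refine Real.log_le_log h ?_
      have := norm_sub_le (v i) (v j)
      linarith [h2 i, h2 j]
  have hm' : ((#{i | ¬ ‖v i‖ ≤ 1} : ℕ) : ℝ) ≤ m := by exact_mod_cast hm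
  set I : Finset ι := {i | ‖v i‖ ≤ 1} with hI
  have h3 : ∀ i ∈ I, ∑ j, Real.log ‖v i - v j‖ ≤
      ∑ j ∈ I, Real.log ‖v i - v j‖ + m * Real.log 4 := fun i _ => by
    rw [← sum_filter_add_sum_filter_not univ fun j => ‖v j‖ ≤ 1]
    refine add_le_add_right ((sum_le_card_nsmul _ _ _ fun j _ => h1 i j).trans ?_) _
    rw [nsmul_eq_mul]
    exact mul_le_mul_of_nonneg_right hm' hL
  have h4 : ∀ i ∈ ({i | ¬ ‖v i‖ ≤ 1} : Finset ι), ∑ j, Real.log ‖v i - v j‖ ≤ n * Real.log 4 :=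
    fun i _ => (sum_le_card_nsmul _ _ _ fun j _ => h1 i j).trans (by rw [nsmul_eq_mul, card_univ])
  have h5 := sum_le_card_nsmul _ _ _ h4
  have h6 := sum_le_sum h3
  rw [sum_add_distrib, sum_const] at h6
  rw [nsmul_eq_mul] at h5 h6
  have h7 : ((#I : ℕ) : ℝ) ≤ n := by rw [hn]; exact_mod_cast card_le_univ _
  have h8 := mul_le_mul_of_nonneg_right hm' (by positivity : 0 ≤ n * Real.log 4)
  have h9 := mul_le_mul_of_nonneg_right h7 (by positivity : 0 ≤ m * Real.log 4)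
  obtain ⟨u, hu⟩ : ∃ u : ℝ, u = 1 / (2 * n) := ⟨_, rfl⟩
  have u0 : 0 < u := by rw [hu]; positivity
  have un : u * n = 1 / 2 := by rw [hu]; field_simp
  have u1 : u ≤ 1 / 2 := by nlinarith
  have e1 := Ct.energy (I.image v) (fun x hx => by
    obtain ⟨i, hi, rfl⟩ := mem_image.1 hx
    exact (mem_filter.1 hi).2) (ρ := 1 - u) (by linarith) (by linarith) ∅
  rw [sum_empty, card_image_of_injective _ hv, sum_image hv.injOn] at e1
  have e2 : ∀ i ∈ I, ∑ y ∈ (I.image v).erase (v i), Real.log ‖v i - y‖ =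
      ∑ j ∈ I, Real.log ‖v i - v j‖ := fun i _ => by
    rw [sum_erase _ (by simp), sum_image hv.injOn]
  rw [sum_congr rfl e2] at e1
  have e3 : -Real.log (1 - u) ≤ 2 * u := by
    have a := Real.one_sub_inv_le_log_of_pos (x := 1 - u) (by linarith)
    have b : (1 - u)⁻¹ ≤ 1 + 2 * u := by
      rw [inv_le_iff_one_le_mul₀ (by linarith)]
      nlinarith
    linarith
  have e4 : Real.log (1 - (1 - u)) = -Real.log (2 * n) := by
    rw [sub_sub_cancel, hu, one_div, Real.log_inv]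
  have e5 : 0 ≤ Real.log (2 * n) := Real.log_nonneg (by linarith)
  have e6 : ((#I : ℕ) : ℝ) ^ 2 * -Real.log (1 - u) ≤ n := by
    calc _ ≤ n ^ 2 * (2 * u) := by
          refine mul_le_mul (by gcongr) e3 ?_ (by positivity)
          exact neg_nonneg.2 (Real.log_nonpos (by linarith) (by linarith))
      _ = 2 * n * (u * n) := by ring
      _ = n := by rw [un]; ring
  have e7 := mul_le_mul_of_nonneg_right h7 e5
  rw [e4] at e1
  rw [← sum_filter_add_sum_filter_not univ fun j => ‖v j‖ ≤ 1]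
  nlinarith

variable {F L L' : Type} [Field F] [NumberField F] [Field L] [NumberField L] [Field L']
  [NumberField L']

lemma gen_inj (pb : PowerBasis ℚ L) (e : Fin pb.dim ≃ (L →ₐ[ℚ] ℂ)) :
    Function.Injective fun i => e i pb.gen := fun _ _ h => e.injective (pb.algHom_ext h)

lemma one_le_of_int {x : ℚ} (h : IsIntegral ℤ x) (h0 : x ≠ 0) : 1 ≤ |x| := by
  obtain ⟨r, rfl⟩ := IsIntegrallyClosed.isIntegral_iff.1 h
  have : r ≠ 0 := by rintro rfl; simp at h0
  rw [eq_intCast]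
  exact_mod_cast Int.one_le_abs this

lemma discr_le (pb : PowerBasis ℚ L) (h : IsIntegral ℤ pb.gen) :
    |(discr L : ℚ)| ≤ |Algebra.discr ℚ pb.basis| := by
  classical
  let b := pb.basis.reindex ((integralBasis L).indexEquiv pb.basis).symm
  have h1 : Algebra.discr ℚ b = Algebra.discr ℚ pb.basis := by
    rw [Basis.coe_reindex, Algebra.discr_reindex]
  have h2 := Algebra.discr_of_matrix_vecMul (integralBasis L) ((integralBasis L).toMatrix b)
  rw [Basis.toMatrix_map_vecMul, h1, ← coe_discr] at h2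
  have h3 : IsIntegral ℤ ((integralBasis L).toMatrix b).det := IsIntegral.det fun i j => by
    have h4 : IsIntegral ℤ (b j) := by
      rw [Basis.reindex_apply, pb.basis_eq_pow]
      exact h.pow _
    rw [Basis.toMatrix_apply, show b j = algebraMap (𝓞 L) L ⟨b j, h4⟩ from rfl,
      integralBasis_repr_apply]
    exact isIntegral_algebraMap
  have h4 := one_le_of_int h3 fun h0 => Algebra.discr_not_zero_of_basis ℚ pb.basis (by
    rw [h2, h0]; simp)
  rw [h2, abs_mul, abs_pow]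
  exact le_mul_of_one_le_left (abs_nonneg _) (one_le_pow₀ h4)

lemma disc_ge [Algebra F L] (pb : PowerBasis ℚ L) (h : IsIntegral ℤ pb.gen)
    (e : Fin pb.dim ≃ (L →ₐ[ℚ] ℂ)) :
    pb.dim * Real.log (rootDiscr F) ≤ ∑ i, ∑ j, Real.log ‖e i pb.gen - e j pb.gen‖ := by
  have hne : ∀ i j, j ∈ univ.erase i → ‖e i pb.gen - e j pb.gen‖ ≠ 0 := fun i j hj =>
    norm_ne_zero_iff.2 (sub_ne_zero.2 fun h => (ne_of_mem_erase hj) (gen_inj pb e h).symm)
  have h1 : ‖algebraMap ℚ ℂ (Algebra.discr ℚ pb.basis)‖ =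
      ∏ i, ∏ j ∈ univ.erase i, ‖e i pb.gen - e j pb.gen‖ := by
    rw [Algebra.discr_powerBasis_eq_prod ℚ ℂ pb e]
    simp only [norm_prod, norm_pow]
    have := prod_prod_Ioi_mul_eq_prod_prod_off_diag
      (fun k i : Fin pb.dim => ‖e i pb.gen - e k pb.gen‖)
    simp only [compl_eq_univ_sdiff, sdiff_singleton_eq_erase] at this
    rw [← this]
    refine prod_congr rfl fun i _ => prod_congr rfl fun k _ => ?_
    rw [norm_sub_rev (e i pb.gen), sq]
  have h2 : Real.log ‖algebraMap ℚ ℂ (Algebra.discr ℚ pb.basis)‖ =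
      ∑ i, ∑ j, Real.log ‖e i pb.gen - e j pb.gen‖ := by
    rw [h1, Real.log_prod fun i _ => prod_ne_zero_iff.2 (hne i)]
    refine sum_congr rfl fun i _ => ?_
    rw [Real.log_prod (hne i), sum_erase _ (by simp)]
  have h3 : (discr F).natAbs ^ finrank F L ≤ (discr L).natAbs := by
    have h4 := natAbs_discr_eq_absNorm_differentIdeal_mul_natAbs_discr_pow F (𝓞 F) L (𝓞 L)
    refine Nat.le_of_dvd (Int.natAbs_pos.2 (discr_ne_zero L)) (Dvd.intro_left _ h4.symm)
  have h4 : |(discr F : ℝ)| ^ finrank F L ≤ ‖algebraMap ℚ ℂ (Algebra.discr ℚ pb.basis)‖ := by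
    rw [eq_ratCast, Complex.norm_ratCast]
    have h5 : |(discr L : ℝ)| ≤ |((Algebra.discr ℚ pb.basis : ℚ) : ℝ)| := by
      exact_mod_cast discr_le pb h
    refine le_trans ?_ h5
    rw [← Int.cast_abs, ← Int.cast_abs, ← Int.natCast_natAbs, ← Int.natCast_natAbs]
    exact_mod_cast h3
  have h5 : (0 : ℝ) < |(discr F : ℝ)| := abs_pos.2 (by exact_mod_cast discr_ne_zero F)
  have h6 := Real.log_le_log (by positivity) h4
  rw [h2, Real.log_pow] at h6
  refine le_trans (le_of_eq ?_) h6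
  have h7 : (finrank ℚ F : ℝ) ≠ 0 := by exact_mod_cast finrank_pos.ne'
  rw [← pb.finrank, ← finrank_mul_finrank ℚ F L, rootDiscr_def, Int.cast_abs, Real.log_rpow h5]
  push_cast
  field_simp

lemma aeval_eq (pb : PowerBasis ℚ L) (e : Fin pb.dim ≃ (L →ₐ[ℚ] ℂ)) (w : ℂ) :
    aeval w (minpoly ℚ pb.gen) = ∏ j, (w - e j pb.gen) := by
  have h1 : (minpoly ℚ pb.gen).map (algebraMap ℚ ℂ) = ∏ j, (X - C (e j pb.gen)) := by
    refine eq_of_monic_of_dvd_of_natDegree_le (monic_prod_X_sub_C _ _)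
      ((minpoly.monic pb.isIntegral_gen).map _)
      (prod_dvd_of_coprime (fun i _ j _ h => pairwise_coprime_X_sub_C (gen_inj pb e) h)
        fun j _ => dvd_iff_isRoot.2 ?_) ?_
    · rw [IsRoot, eval_map_algebraMap, aeval_algHom_apply, minpoly.aeval, map_zero]
    · rw [natDegree_map, pb.natDegree_minpoly, natDegree_prod_of_monic _ _
        fun j _ => monic_X_sub_C _]
      simp
  rw [← eval_map_algebraMap, h1, eval_prod]
  simp

lemma res_ge (pb : PowerBasis ℚ L) (e : Fin pb.dim ≃ (L →ₐ[ℚ] ℂ)) (pb' : PowerBasis ℚ L')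
    (e' : Fin pb'.dim ≃ (L' →ₐ[ℚ] ℂ)) {p : ℕ} (hp : 0 < p)
    (hne : ∀ i j, e' i pb'.gen ≠ e j pb.gen)
    (h : IsIntegral ℤ (aeval pb'.gen (minpoly ℚ pb.gen) / (p : L'))) :
    pb'.dim * Real.log p ≤ ∑ i, ∑ j, Real.log ‖e' i pb'.gen - e j pb.gen‖ := by
  have hp' : (0 : ℝ) < p := by exact_mod_cast hp
  have h0 : ∀ i j, ‖e' i pb'.gen - e j pb.gen‖ ≠ 0 := fun i j =>
    norm_ne_zero_iff.2 (sub_ne_zero.2 (hne i j))
  have h1 : ∀ i, ‖e' i (aeval pb'.gen (minpoly ℚ pb.gen) / (p : L'))‖ =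
      (∏ j, ‖e' i pb'.gen - e j pb.gen‖) / p := fun i => by
    rw [map_div₀, ← aeval_algHom_apply, aeval_eq pb e, norm_div, norm_prod, map_natCast,
      Complex.norm_natCast]
  have h2 : ‖algebraMap ℚ ℂ (Algebra.norm ℚ (aeval pb'.gen (minpoly ℚ pb.gen) / (p : L')))‖ =
      ∏ i, (∏ j, ‖e' i pb'.gen - e j pb.gen‖) / p := by
    rw [Algebra.norm_eq_prod_embeddings, norm_prod, ← e'.prod_comp]
    exact prod_congr rfl fun i _ => h1 i
  have h3 : ∀ i, (∏ j, ‖e' i pb'.gen - e j pb.gen‖) / p ≠ 0 := fun i =>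
    div_ne_zero (prod_ne_zero_iff.2 fun j _ => h0 i j) hp'.ne'
  have h4 := one_le_of_int (Algebra.isIntegral_norm ℚ h) fun h5 => by
    rw [h5, map_zero, norm_zero] at h2
    exact prod_ne_zero_iff.2 (fun i _ => h3 i) h2.symm
  have h5 : 0 ≤ Real.log (∏ i, (∏ j, ‖e' i pb'.gen - e j pb.gen‖) / p) := by
    rw [← h2, eq_ratCast, Complex.norm_ratCast]
    exact Real.log_nonneg (by exact_mod_cast h4)
  rw [Real.log_prod fun i _ => h3 i, sum_congr rfl fun i _ => by
    rw [Real.log_div (prod_ne_zero_iff.2 fun j _ => h0 i j) hp'.ne',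
      Real.log_prod fun j _ => h0 i j], sum_sub_distrib, sum_const, card_univ, Fintype.card_fin,
    nsmul_eq_mul] at h5
  linarith

end Pool.Agent.Lib.MP_162bbe_gt.Mv
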