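import Pool.Agent.Lib.MP_162bbe_gt.Mv.Main
import Pool.Agent.Lib.MP_162bbe_gt.Mv.Defs
import Pool.Agent.Lib.MP_162bbe_gt.Ad.Final

/-! Short elements have finite order. -/

namespace Pool.Agent.Lib.MP_162bbe_gt.Mv

section

open Finset MulAction Module Polynomial Pool.Agent.Lib.MP_f61260_nt IntermediateField

theorem poly_m (M r m : ℕ) : ∃ a : ℕ, ∀ C : ℝ, ∃ R : ℝ, 1 < R ∧
    ∀ (k : Type) [Field k] [NumberField k] (χ : k[X]) (S : Fin r → k →+* ℂ), χ.Monic →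
      χ.natDegree = M → (∀ n, IsIntegral ℤ (χ.coeff n)) → Mild m a C k (Set.range S) →
      (∀ σ ∉ Set.range S, ∀ z, eval₂ σ z χ = 0 → ‖z‖ = 1) →
      (∀ i z, eval₂ (S i) z χ = 0 → z ≠ 0 ∧ ‖z‖ ≤ R) →
      ∀ (σ : k →+* ℂ) z, eval₂ σ z χ = 0 → ∃ n, 0 < n ∧ z ^ n = 1 := by
  classical
  obtain ⟨κ, hκ⟩ := salem_m M r m
  refine ⟨κ, fun C => ?_⟩
  obtain ⟨c, hc, hsalem⟩ := hκ C
  refine ⟨Real.exp (c * 1), Real.one_lt_exp_iff.2 (by positivity),
    fun k _ _ χ S hm hM hint hyp hcirc hγ => ?_⟩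
  by_cases hall : ∀ (σ : k →+* ℂ) z, eval₂ σ z χ = 0 → ‖z‖ = 1
  · intro σ z hz
    obtain ⟨P, -, -, -, h1, -, -, h2⟩ := exists_minpoly hm hint σ hz
    exact h2 fun w hw => (h1 w hw).elim fun σ' h => hall σ' w h
  exfalso
  push Not at hall
  obtain ⟨σ₀, w, hw, hw1⟩ := hall
  obtain ⟨i, rfl⟩ : σ₀ ∈ Set.range S := by_contra fun h => hw1 (hcirc _ h _ hw)
  have hwi := isIntegral_of_root _ hm hint hw
  let z : Qb := ⟨w, mem_algebraicClosure_iff'.2 hwi.tower_top⟩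
  have hz : eval₂ (up (S i)) z χ = 0 := Subtype.ext ((eval_dn (up (S i)) _ z).symm.trans hw)
  have hgz : ∀ g : GA, eval₂ (dn (g • up (S i))) (g z : ℂ) χ = 0 := fun g => by
    rw [eval_dn, eval_smul, hz, map_zero]; rfl
  have hT : ∀ e : k →+* Qb, e ∈ univ.image (fun i => up (S i)) ↔ dn e ∈ Set.range S := fun e => by
    rw [mem_image]
    exact ⟨fun ⟨i, _, h⟩ => ⟨i, congrArg dn h⟩, fun ⟨i, h⟩ => ⟨i, mem_univ _, dn_inj h⟩⟩
  have hd : 1 ≤ finrank ℚ k := finrank_pos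
  obtain ⟨g, hg, h⟩ := hsalem k χ (univ.image fun i => up (S i)) (up (S i)) z 1 hm hM
    (card_image_le.trans (by simp)) zero_le_one le_rfl (by rw [one_pow]; exact_mod_cast hd) hz
    ((isIntegral_algHom_iff (algebraMap Qb ℂ).toIntAlgHom Subtype.val_injective).1 hwi)
    (fun h => (hγ i w hw).1 (congrArg Subtype.val h)) hw1
    (fun g hg => hcirc _ (fun h => hg ((hT _).2 h)) _ (hgz g)) fun k₁ hk₁ => by
      have ho : Orb (⊤ : Subgroup GA) ((up (S i)).comp (algebraMap k₁ k)) (finrank ℚ k) :=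
        (orb_top _).mono (Submodule.finrank_le k₁.toSubmodule)
      rcases hyp with h | h | h
      · obtain ⟨n, hn⟩ := solv_fix (k := k)
        obtain ⟨j, hj, h⟩ := tup_solv ((up (S i)).comp (algebraMap k₁ k)) (n := n)
          (fun ν hν => RingHom.ext fun x => RingHom.congr_fun (hn ν hν (up (S i))) x) ho
        exact Or.inr ⟨j + 1, _, by omega, by omega, h,
          Or.inr (Nat.le_mul_of_pos_left _ (by omega))⟩
      · obtain ⟨N, hN, hN'⟩ := idx_field (normalClosure ℚ k ℂ)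
        rcases tup_poly _ m ho N (fun g => hN' _ _ fun x =>
          (dn (g • up (S i))).toRatAlgHom.fieldRange_le_normalClosure ⟨x, rfl⟩) hN with h' | h'
        · exact Or.inr ⟨1, _, le_rfl, by omega, h', Or.inr (by simp)⟩
        · exact Or.inr ⟨m + 1, _, by omega, by omega, h',
            Or.inr (h.trans (Nat.le_mul_of_pos_left _ (by omega)))⟩
      · obtain h | ⟨j, σ, hj, hj', hσ, h⟩ := h _ ⟨i, rfl⟩ k₁ fun σ hσ => by
          obtain ⟨g, hg⟩ := emb_trans (up (S i)) (up σ)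
          refine (hT (up σ)).1 (hg ▸ hk₁ g (mem_stab.2 fun x => ?_))
          exact (RingHom.congr_fun hg x).trans (Subtype.ext (hσ x x.2))
        · exact Or.inl h
        · exact Or.inr ⟨j, _, hj, by omega, tup_field _ σ hσ, Or.inl (by rw [one_mul]; exact h)⟩
  obtain ⟨i', hi'⟩ := (hT _).1 hg
  exact absurd (hγ i' _ (hi' ▸ hgz g)).2 (not_le.2 h)

end

open Module LieAlgebra NumberField Polynomial Pool.Agent.Lib.MP_162bbe_gt.Ad

theorem fin_order (r m : ℕ) (g : Fin r → Type) [∀ i, LieRing (g i)] [∀ i, LieAlgebra ℂ (g i)]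
    [∀ i, Module.Finite ℂ (g i)] [∀ i, IsSimple ℂ (g i)] :
    ∃ a : ℕ, ∀ (C : ℝ) (h : ∀ i, Submodule ℝ (g i)) (G : Type) [Group G] [TopologicalSpace G]
      [IsTopologicalGroup G] (π : ∀ i, G →* End ℂ (g i)), Adj h π →
      ∃ U ∈ nhds (1 : G), ∀ Γ : Subgroup G, CompactSpace (G ⧸ Γ) → MildArith h π m a C Γ →
        ∀ b : G, ∀ γ ∈ Γ, b * γ * b⁻¹ ∈ U → IsOfFinOrder γ := by
  rcases isEmpty_or_nonempty (Fin r) with hr | ⟨⟨i₀⟩⟩
  · refine ⟨0, fun C h G _ _ _ π hA => ⟨_, Filter.univ_mem, fun Γ _ _ b γ _ _ => ?_⟩⟩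
    have : Finite G := Set.finite_univ_iff.1 (hA.fin.subset fun a _ i => hr.elim i)
    exact isOfFinOrder_of_finite γ
  let E := Fintype.equivFin (Fin r × Bool)
  obtain ⟨a, ha⟩ := poly_m (finrank ℂ (g i₀)) (Fintype.card (Fin r × Bool)) m
  refine ⟨a, fun C h G _ _ _ π hA => ?_⟩
  obtain ⟨R, hR, hpoly⟩ := ha C
  refine ⟨⋂ i, {u | ∀ _ : Fin 1, ∀ z, eval z (matH (π i) u).charpoly = 0 → ‖z‖ < R},
    Filter.iInter_mem.2 fun i => spec_nhds (fun _ => matH (π i)) (fun _ => (hA.fac i).cont) hR, ?_⟩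
  rintro Γ _ ⟨k, L, _, _, _, _, X, hX⟩ b γ hγ hU
  have := X.finite
  have := X.idx
  choose ρ hρ using fun i => exists_frm (X.lie i) (X.dim i) (X.span i)
  have := (hρ i₀).killing
  obtain ⟨F, hF, hF1, hF2⟩ := lift hA X hρ i₀
  let S : Fin r × Bool → k →+* ℂ := fun p =>
    bif p.2 then X.σ p.1 else ComplexEmbedding.conjugate (X.σ p.1)
  have hS : Set.range (S ∘ E.symm) = {s | ∃ i, InfinitePlace.mk s = InfinitePlace.mk (X.σ i)} := by
    rw [E.symm.surjective.range_comp]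
    ext s
    constructor
    · rintro ⟨⟨i, _ | _⟩, rfl⟩
      · exact ⟨i, InfinitePlace.mk_conjugate_eq _⟩
      · exact ⟨i, rfl⟩
    · rintro ⟨i, hi⟩
      rcases InfinitePlace.mk_eq_iff.1 hi.symm with h1 | h1
      · exact ⟨(i, true), h1⟩
      · exact ⟨(i, false), h1⟩
  have hch : ∀ i z, eval z (matH (π i) γ).charpoly = eval₂ (X.σ i) z (F ⟨γ, hγ⟩).charpoly :=
    fun i z => by rw [matH_apply, mat_charpoly, eval₂_eq_eval_map, ← (hρ i).char, hF]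
  have hm := (F ⟨γ, hγ⟩).charpoly_monic
  obtain ⟨N, hN, -, hN'⟩ := Subgroup.exists_pow_mem_of_index_ne_zero
    (Subgroup.FiniteIndex.index_ne_zero (H := X.Δ)) ⟨γ, hγ⟩
  have key := hpoly k (F ⟨γ, hγ⟩).charpoly (S ∘ E.symm) hm
    (by rw [LinearMap.charpoly_natDegree, X.dim i₀])
    (integral (X.σ i₀) X.fg X.full hN (map_pow F _ N ▸ hF2 _ hN')) (by rw [hS]; exact hX)
    (fun s hs z hz => circ (X.neg s fun i hi => hs (hS ▸ ⟨i, hi⟩)) ((Group.isUnit _).map F)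
      (hF1 _) hz) (fun j z hz => by
      obtain ⟨i, hi⟩ : ∃ i, InfinitePlace.mk ((S ∘ E.symm) j) = InfinitePlace.mk (X.σ i) :=
        (Set.ext_iff.1 hS _).1 ⟨j, rfl⟩
      obtain ⟨w, hw, h1⟩ := SU.main_conj hm.ne_zero hi ((mem_roots_map hm.ne_zero).2 hz)
      rw [mem_roots_map hm.ne_zero, ← hch] at hw
      refine ⟨norm_ne_zero_iff.1 (h1 ▸ norm_ne_zero_iff.2 (eig_ne_zero _ hw)),
        h1 ▸ (Set.mem_iInter.1 hU i 0 w ?_).le⟩
      rwa [map_mul, Matrix.charpoly_mul_comm, ← map_mul, inv_mul_cancel_left]) (X.σ i₀)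
  obtain ⟨M, hM, hnil⟩ := exists_pow_nilpotent (matH (π i₀) γ) fun z hz => key z (hch i₀ z ▸ hz)
  have : Nontrivial L := by
    obtain ⟨x, y, h1⟩ := (hρ i₀).exists_lie_ne
    exact ⟨_, _, h1⟩
  have : IsSimpleRing (End k L) :=
    have : Nonempty (Fin (finrank k L)) := ⟨⟨0, finrank_pos⟩⟩
    IsSimpleRing.of_ringEquiv (LinearMap.toMatrixAlgEquiv (finBasis k L)).symm.toRingEquiv
      inferInstance
  have : Nontrivial (g i₀) := (hρ i₀).inj.nontrivial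
  have h1 : F (⟨γ, hγ⟩ ^ M) = 1 := by
    by_contra h1
    obtain ⟨x, y, h2, h3⟩ := unip (hF1 _) ((IsNilpotent.map_iff (ρ i₀).injective).1
      ((IsNilpotent.map_iff (matE (g i₀)).injective).1 (by
        rw [map_sub, map_one, hF, map_sub, map_one, Subgroup.coe_pow, map_pow, map_pow]
        exact hnil))) h1
    exact h2 (aniso hA X hρ hF hF2 h3)
  have h2 : ∀ j i, π i ((γ ^ M) ^ j) = 1 := fun j i => by
    have h3 := hF i (⟨γ, hγ⟩ ^ M)
    rw [h1, map_one] at h3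
    rw [map_pow, show π i (γ ^ M) = 1 from h3.symm, one_pow]
  refine IsOfFinOrder.of_pow (n := M) (finite_powers.1 (hA.fin.subset ?_)) hM.ne'
  rintro _ ⟨j, rfl⟩
  exact h2 j

end Pool.Agent.Lib.MP_162bbe_gt.Mv
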