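import Pool.Agent.Lib.MP_162bbe_gt.Mv.Disc
import Pool.Agent.Lib.MP_162bbe_gt.TEmb
import Pool.Agent.Lib.MP_162bbe_gt.Padic

set_option autoImplicit false

/-! The gap for numbers whose field has a large root discriminant. -/

namespace Pool.Agent.Lib.MP_162bbe_gt.Mv

open Finset MulAction Module Polynomial NumberField IntermediateField Pool.Agent.Lib.MP_f61260_nt

lemma intQ (y : Qb) : IsIntegral ℚ y := Algebra.IsIntegral.isIntegral y

instance nf (y : Qb) : NumberField ℚ⟮y⟯ :=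
  { to_finiteDimensional := adjoin.finiteDimensional (intQ y) }

/-- the power basis of a number -/
noncomputable def pbs (y : Qb) : PowerBasis ℚ ℚ⟮y⟯ := adjoin.powerBasis (intQ y)

/-- a numbering of the embeddings -/
noncomputable def num (y : Qb) : Fin (pbs y).dim ≃ (ℚ⟮y⟯ →ₐ[ℚ] ℂ) :=
  Fintype.equivOfCardEq (by rw [Fintype.card_fin, AlgHom.card, (pbs y).finrank])

/-- the conjugates -/
noncomputable def rt (y : Qb) (i : Fin (pbs y).dim) : ℂ := num y i (pbs y).gen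

lemma rt_inj (y : Qb) : Function.Injective (rt y) := gen_inj _ _

lemma rt_conj (y : Qb) (i : Fin (pbs y).dim) : ∃ g : GA, (g y : ℂ) = rt y i := by
  obtain ⟨g, hg⟩ := emb_trans (algebraMap ℚ⟮y⟯ Qb) (up (num y i : ℚ⟮y⟯ →+* ℂ))
  exact ⟨g, congrArg Subtype.val (RingHom.congr_fun hg (pbs y).gen)⟩

lemma conj_rt (y : Qb) (g : GA) : ∃ i, rt y i = (g y : ℂ) :=
  ⟨(num y).symm (dn (g • algebraMap ℚ⟮y⟯ Qb)).toRatAlgHom, by
    rw [rt, Equiv.apply_symm_apply]; rfl⟩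

lemma dim_le {y : Qb} {D : ℕ} (h : IdxLe ⊤ (St ℚ y) D) : (pbs y).dim ≤ D := by
  obtain ⟨R, hR, h⟩ := orb_of_idx h
  choose g hg using rt_conj y
  refine le_trans ?_ hR
  rw [← Fintype.card_fin (pbs y).dim, ← card_univ]
  exact card_le_card_of_injOn (fun i => g i y) (fun i _ => h _ trivial) fun i _ j _ hij =>
    rt_inj y (by rw [← hg, ← hg]; exact congrArg _ hij)

lemma idx_dim (y : Qb) : IdxLe ⊤ (St ℚ y) (pbs y).dim := by
  classical
  choose g hg using rt_conj y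
  refine (idx_of_finset (univ.image fun i => g i y) fun σ _ => ?_).mono
    (card_image_le.trans (by simp))
  obtain ⟨i, hi⟩ := conj_rt y σ
  exact mem_image.2 ⟨i, mem_univ _, Subtype.ext ((hg i).trans hi)⟩

lemma gen_int {y : Qb} (hy : IsIntegral ℤ y) : IsIntegral ℤ (pbs y).gen :=
  (isIntegral_algHom_iff (algebraMap ℚ⟮y⟯ Qb).toIntAlgHom Subtype.val_injective).1 hy

lemma disc_rt {F : Type} [Field F] [NumberField F] (ι : F →+* Qb) {y : Qb} (hy : IsIntegral ℤ y)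
    (h : St ℚ y ≤ stabilizer GA ι) :
    (pbs y).dim * Real.log (rootDiscr F) ≤ ∑ i, ∑ j, Real.log ‖rt y i - rt y j‖ := by
  have h1 : ∀ x, ι x ∈ ℚ⟮y⟯ := fun x => by
    rw [← InfiniteGalois.fixedField_fixingSubgroup ℚ⟮y⟯]
    exact fun σ => mem_stab.1 (h (σ.2 ⟨y, mem_adjoin_simple_self ℚ y⟩)) x
  let _ : Algebra F ℚ⟮y⟯ := (ι.codRestrict ℚ⟮y⟯ h1).toAlgebra
  exact disc_ge _ (gen_int hy) _

lemma res_rt {z : Qb} (hz : IsIntegral ℤ z) {p : ℕ} (hp : p.Prime)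
    (hne : ∀ i j, rt (z ^ p) i ≠ rt z j) :
    (pbs (z ^ p)).dim * Real.log p ≤ ∑ i, ∑ j, Real.log ‖rt (z ^ p) i - rt z j‖ := by
  refine res_ge _ _ _ _ hp.pos hne ((isIntegral_algHom_iff
    (algebraMap ℚ⟮z ^ p⟯ Qb).toIntAlgHom Subtype.val_injective).1 ?_)
  obtain ⟨k, hk⟩ := dvd_aeval_pow hp (minpoly ℤ z) (x := (⟨z, hz⟩ : integralClosure ℤ Qb))
    (Subtype.ext ((aeval_algHom_apply (integralClosure ℤ Qb).val _ _).symm.trans
      (minpoly.aeval ℤ z)))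
  have h1 : aeval (z ^ p) (minpoly ℤ z) = p * (k : Qb) :=
    (aeval_algHom_apply (integralClosure ℤ Qb).val (⟨z, hz⟩ ^ p) _).trans (congrArg Subtype.val hk)
  have h2 : minpoly ℚ (pbs z).gen = (minpoly ℤ z).map (algebraMap ℤ ℚ) := by
    rw [← minpoly.isIntegrallyClosed_eq_field_fractions' ℚ hz]
    exact minpoly_gen ℚ z
  have h3 : (p : Qb) ≠ 0 := Nat.cast_ne_zero.2 hp.ne_zero
  have h4 : (algebraMap ℚ⟮z ^ p⟯ Qb).toIntAlgHom
      (aeval (pbs (z ^ p)).gen (minpoly ℚ (pbs z).gen) / (p : ℚ⟮z ^ p⟯)) = k := by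
    rw [map_div₀, map_natCast, h2, aeval_map_algebraMap, ← aeval_algHom_apply, div_eq_iff h3,
      mul_comm, ← h1]
    rfl
  rw [h4]
  exact k.2

lemma rt_ne {z : Qb} (h0 : z ≠ 0) (h1 : ‖(z : ℂ)‖ ≠ 1) {p : ℕ} (hp : 1 < p) (i j) :
    rt (z ^ p) i ≠ rt z j := by
  intro h
  obtain ⟨g, hg⟩ := rt_conj (z ^ p) i
  obtain ⟨g', hg'⟩ := rt_conj z j
  have h2 : z ^ p = (g⁻¹ * g') z := by
    rw [AlgEquiv.mul_apply, ← show g (z ^ p) = g' z from Subtype.ext (hg.trans (h.trans hg'.symm)),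
      ← AlgEquiv.mul_apply, inv_mul_cancel, AlgEquiv.one_apply]
  have h3 : ∀ n : ℕ, z ^ p ^ n = ((g⁻¹ * g') ^ n) z := fun n => by
    induction n with
    | zero => simp
    | succ n ih => rw [pow_succ, pow_mul, ih, ← map_pow, h2, pow_succ]; rfl
  choose f hf using fun n : ℕ => conj_rt z ((g⁻¹ * g') ^ n)
  refine not_injective_infinite_finite f fun a b hab => ?_
  have h4 : ‖(z : ℂ)‖ ^ p ^ a = ‖(z : ℂ)‖ ^ p ^ b := by
    have := (hf a).symm.trans ((congrArg (rt z) hab).trans (hf b))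
    rw [← h3, ← h3] at this
    simpa using congrArg norm this
  exact Nat.pow_right_injective hp (pow_right_injective₀
    (norm_pos_iff.2 fun h => h0 (Subtype.ext h)) h1 h4)

theorem gap (M : ℕ) (C : ℝ) : ∃ p : ℕ, 0 < p ∧
    ∀ (F : Type) [Field F] [NumberField F] (ι : F →+* Qb) (z : Qb) (R : Finset Qb) (D : ℕ),
      IsIntegral ℤ z → z ≠ 0 → ‖(z : ℂ)‖ ≠ 1 → #R ≤ M → (∀ g : GA, ‖(g z : ℂ)‖ ≠ 1 → g z ∈ R) →
      St ℚ (z ^ p) ≤ stabilizer GA ι → IdxLe ⊤ (St ℚ z) D → D ≤ C * rootDiscr F →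
      ∃ g : GA, 2 < ‖(g z : ℂ)‖ ^ p := by
  classical
  set K : ℝ := Real.log (4 * max C 1) + 1 + 2 * (2 * M : ℕ) * Real.log 4 with hK
  have hC : (1 : ℝ) ≤ max C 1 := le_max_right _ _
  have hK0 : 0 ≤ K := by
    have := Real.log_nonneg (show (1 : ℝ) ≤ 4 * max C 1 by linarith)
    have := Real.log_nonneg (show (1 : ℝ) ≤ 4 by norm_num)
    positivity
  obtain ⟨p, hp1, hp⟩ := Nat.exists_infinite_primes (⌈Real.exp (M * K)⌉₊ + 1)
  refine ⟨p, hp.pos, fun F _ _ ι z R D hz h0 h1 hR hoff hst hD hrd => ?_⟩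
  by_contra hcon
  push Not at hcon
  have hpow : ∀ g : GA, (g (z ^ p) : ℂ) = (g z : ℂ) ^ p := fun g => by rw [map_pow]; rfl
  have hle : St ℚ z ≤ St ℚ (z ^ p) := fun σ hσ => by rw [mem_St, map_pow, mem_St.1 hσ]
  have hne := rt_ne h0 h1 hp.one_lt
  have n1 := dim_le hD
  have n2 := dim_le (idx_le (idx_dim z) hle)
  have n3 := dim_le (idx_tri (idx_dim (z ^ p)) ((idx_of_finset (B := St ℚ (z ^ p)) R
    fun σ hσ => hoff σ fun h => h1 (by
      have h2 := congrArg norm (hpow σ)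
      rw [mem_St.1 hσ, norm_pow, h, one_pow] at h2
      exact (pow_eq_one_iff_of_nonneg (norm_nonneg _) hp.ne_zero).1 (by simpa using h2))).mono hR))
  have n4 : 0 < (pbs z).dim := (pbs z).dim_pos
  have : Nonempty (Fin (pbs z).dim ⊕ Fin (pbs (z ^ p)).dim) := ⟨Sum.inl ⟨0, n4⟩⟩
  have hv : Function.Injective (Sum.elim (rt z) (rt (z ^ p))) :=
    (rt_inj z).sumElim (rt_inj _) fun a b h => hne b a h.symm
  have u := upper (Sum.elim (rt z) (rt (z ^ p))) hv (m := 2 * M) (by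
    refine (card_le_card_of_injOn _ (t := R.image (fun x : Qb => (x : ℂ)) ∪
      R.image fun x : Qb => (x : ℂ) ^ p) ?_ hv.injOn).trans ((card_union_le _ _).trans
        ((add_le_add (card_image_le.trans hR) (card_image_le.trans hR)).trans (by omega)))
    rintro (i | i) hi
    · obtain ⟨g, hg⟩ := rt_conj z i
      exact mem_union_left _ (mem_image.2 ⟨_, hoff g fun h =>
        (mem_filter.1 hi).2 (by rw [Sum.elim_inl, ← hg, h]), hg⟩)
    · obtain ⟨g, hg⟩ := rt_conj (z ^ p) i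
      exact mem_union_right _ (mem_image.2 ⟨_, hoff g fun h =>
        (mem_filter.1 hi).2 (by rw [Sum.elim_inr, ← hg, hpow, norm_pow, h, one_pow]),
          (hpow g).symm.trans hg⟩)) (by
    rintro (i | i)
    · obtain ⟨g, hg⟩ := rt_conj z i
      rw [Sum.elim_inl, ← hg]
      rcases le_total ‖(g z : ℂ)‖ 1 with h | h
      · linarith
      · exact (le_self_pow₀ h hp.ne_zero).trans (hcon g)
    · obtain ⟨g, hg⟩ := rt_conj (z ^ p) i
      rw [Sum.elim_inr, ← hg, hpow, norm_pow]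
      exact hcon g)
  simp only [Fintype.sum_sum_type, Sum.elim_inl, Sum.elim_inr, sum_add_distrib, Fintype.card_sum,
    Fintype.card_fin] at u
  have d1 := disc_rt ι hz (hle.trans hst)
  have d2 := disc_rt ι (hz.pow p) hst
  have d3 := res_rt hz hp hne
  have d4 : ∑ i, ∑ j, Real.log ‖rt z i - rt (z ^ p) j‖ =
      ∑ i, ∑ j, Real.log ‖rt (z ^ p) i - rt z j‖ := by
    rw [sum_comm]
    exact sum_congr rfl fun _ _ => sum_congr rfl fun _ _ => by rw [norm_sub_rev]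
  have r0 : 0 < rootDiscr F := by
    rw [rootDiscr_def]
    exact Real.rpow_pos_of_pos (by exact_mod_cast abs_pos.2 (discr_ne_zero F)) _
  have m1 : ((pbs z).dim : ℝ) ≤ max C 1 * rootDiscr F :=
    ((Nat.cast_le.2 n1).trans hrd).trans (mul_le_mul_of_nonneg_right (le_max_left _ _) r0.le)
  have m2 : ((pbs (z ^ p)).dim : ℝ) ≤ (pbs z).dim := Nat.cast_le.2 n2
  have m3 : ((pbs z).dim : ℝ) ≤ (pbs (z ^ p)).dim * M := by exact_mod_cast n3
  have m4 : (0 : ℝ) < (pbs (z ^ p)).dim := by exact_mod_cast (pbs (z ^ p)).dim_pos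
  rw [Nat.cast_add] at u
  have l1 : Real.log (2 * ((pbs z).dim + (pbs (z ^ p)).dim : ℝ)) ≤
      Real.log (4 * max C 1) + Real.log (rootDiscr F) := by
    rw [← Real.log_mul (by positivity) r0.ne']
    exact Real.log_le_log (by linarith) (by linarith)
  have l2 := mul_le_mul_of_nonneg_left l1
    (show (0 : ℝ) ≤ (pbs z).dim + (pbs (z ^ p)).dim by linarith)
  have l3 : M * K < Real.log p := by
    rw [Real.lt_log_iff_exp_lt (by exact_mod_cast hp.pos)]
    have : ((⌈Real.exp (M * K)⌉₊ + 1 : ℕ) : ℝ) ≤ p := Nat.cast_le.2 hp1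
    push_cast at this
    linarith [Nat.le_ceil (Real.exp (M * K))]
  have l4 := mul_lt_mul_of_pos_left l3 m4
  have l5 := mul_le_mul_of_nonneg_right (show ((pbs z).dim + (pbs (z ^ p)).dim : ℝ) ≤
    2 * ((pbs (z ^ p)).dim * M) by linarith) hK0
  have l6 : 2 * ((pbs (z ^ p)).dim * Real.log p) ≤ ((pbs z).dim + (pbs (z ^ p)).dim : ℝ) * K := by
    rw [hK]
    nlinarith
  nlinarith

end Pool.Agent.Lib.MP_162bbe_gt.Mv
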