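import Pool.Agent.Lib.MP_162bbe_gt.Mv.Gap
import Pool.Agent.Lib.MP_162bbe_gt.TMain

set_option autoImplicit false

/-! The house bound, with the case of a large root discriminant. -/

namespace Pool.Agent.Lib.MP_162bbe_gt.Mv

open Finset MulAction Module Polynomial NumberField Pool.Agent.Lib.MP_f61260_nt

theorem salem_m (M r m : ℕ) : ∃ κ : ℕ, ∀ C : ℝ, ∃ c : ℝ, 0 < c ∧
    ∀ (k : Type) [Field k] [NumberField k] (χ : k[X]) (T : Finset (k →+* Qb)) (e : k →+* Qb)
      (z : Qb) (t : ℝ), χ.Monic → χ.natDegree = M → #T ≤ r → 0 ≤ t → t ≤ 1 →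
      t ^ (m + 5) ≤ finrank ℚ k → eval₂ e z χ = 0 → IsIntegral ℤ z → z ≠ 0 → ‖(z : ℂ)‖ ≠ 1 →
      (∀ g : GA, g • e ∉ T → ‖(g z : ℂ)‖ = 1) →
      (∀ k₁ : IntermediateField ℚ k,
        (∀ g ∈ stabilizer GA (e.comp (algebraMap k₁ k)), g • e ∈ T) →
        finrank ℚ k ≤ C * rootDiscr k₁ ∨ ∃ j D : ℕ, 1 ≤ j ∧ j ≤ m + 4 ∧ Tup GA (e.comp (algebraMap k₁ k)) j D ∧
          ((D : ℝ) * (t * Real.log (3 * finrank ℚ k) ^ κ) ^ j ≤ C * finrank ℚ k ^ j ∨
            D ≤ (m + 1) * finrank ℚ k ^ (j - 1))) →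
      ∃ g : GA, g • e ∈ T ∧ Real.exp (c * t) < ‖(g z : ℂ)‖ := by
  classical
  obtain ⟨c₀, hc₀, κ, hAD⟩ := exists_AD (m + 5)
  obtain ⟨C₁, hC₁, hsm⟩ := small_t κ (m + 4)
  refine ⟨κ, fun C => ?_⟩
  set B := M * ((m + 4) * r) + 1 with hB
  set B' := B ^ 2 ^ r + (m + 1) with hB'
  obtain ⟨c, hc, hcc⟩ := small_c hc₀ κ r M (m + 4) (max C (B' * C₁))
  obtain ⟨p, hp, hgap⟩ := gap (r * M) (C * M)
  have hp' : (0 : ℝ) < p := by exact_mod_cast hp
  have hl : 0 < Real.log 2 := Real.log_pos one_lt_two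
  refine ⟨min c (Real.log 2 / p), lt_min hc (by positivity),
    fun k _ _ χ T e z t hχ hM hT ht ht1 htd hz hint hz0 hz1 h1 hyp => ?_⟩
  by_contra hcon₀
  push Not at hcon₀
  have hcon : ∀ g : GA, g • e ∈ T → ‖(g z : ℂ)‖ ≤ Real.exp (c * t) := fun g hg =>
    (hcon₀ g hg).trans (Real.exp_le_exp.2 (mul_le_mul_of_nonneg_right (min_le_left _ _) ht))
  have hd : (1 : ℝ) ≤ finrank ℚ k := by exact_mod_cast finrank_pos
  have hM1 := idx_root hχ hz
  rw [hM] at hM1
  have key : ∀ (j D : ℕ) (g : Fin j → GA) (V : Subgroup GA), 1 ≤ j → j ≤ m + 4 →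
      (∀ n : Fin j → ℤ, ∏ a, g a z ^ n a = 1 → n = 0) → IdxLe ⊤ V D →
      (∀ σ ∈ V, ∀ a, ((g a)⁻¹ * σ * g a) • e ∈ T) →
      ((D : ℝ) * (t * Real.log (3 * finrank ℚ k) ^ κ) ^ j ≤ C * finrank ℚ k ^ j ∨
        D ≤ B' * finrank ℚ k ^ (j - 1)) → False := by
    intro j D g V hj hj' hind hV hg h
    have h2 := core_bound (hAD j (by omega)) hχ hT hz hz0 hint (by positivity) h1 hcon g hind hV hg
    rw [hM] at h2
    refine absurd h2 (not_le.2 (hcc _ t D j hd ht (by positivity) (idx_pos hM1) hj hj' ?_))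
    rcases h with h | h
    · exact h.trans (mul_le_mul_of_nonneg_right (le_max_left _ _) (by positivity))
    · have h3 : (D : ℝ) ≤ B' * finrank ℚ k ^ (j - 1) := by exact_mod_cast h
      have h4 := one_le_log hd
      refine (mul_le_mul h3 (hsm _ t hd ht htd j hj') (by positivity) (by positivity)).trans ?_
      refine le_trans (le_of_eq ?_) (mul_le_mul_of_nonneg_right (le_max_right _ _) (by positivity))
      obtain ⟨i, rfl⟩ := Nat.exists_eq_add_of_le' hj
      rw [Nat.add_sub_cancel]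
      ring
  have he : e ∈ T := by_contra fun h => hz1 (h1 1 h)
  rcases block (𝒢 := GA) e T hT (show 1 ≤ B by omega) with ⟨g, hg, ho⟩ | ⟨H, hH, hHT, hHo⟩
  · refine key 2 (finrank ℚ k * B ^ 2 ^ r) ![1, g] (stabilizer GA e ⊓ stabilizer GA (g • e))
      (by omega) (by omega) (fun n hn => ?_)
      (idx_tri (orb_top e).idx (ho.idx.restrict le_rfl le_rfl)) (fun σ hσ a => ?_) (Or.inr ?_)
    · have h2 : n 0 = 0 := indep_of hz1 h1 _ hn 0 1 rfl fun b hb => by
        fin_cases b
        · exact absurd rfl hb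
        · exact Or.inl hg
      have h3 : n 1 = 0 := indep_of hz1 h1 _ hn 1 g⁻¹ (by simp) fun b hb => by
        fin_cases b
        · exact Or.inr h2
        · exact absurd rfl hb
      funext a
      fin_cases a
      exacts [h2, h3]
    · fin_cases a
      · simpa [mem_stabilizer_iff.1 hσ.1] using he
      · simpa [mul_smul, mem_stabilizer_iff.1 hσ.2] using he
    · rw [mul_comm]
      exact Nat.mul_le_mul (by omega) (by simp)
  · obtain ⟨k₁, rfl⟩ := exists_sub e H hH
    obtain hrd | ⟨j, D, hj, hj', ⟨g, hg, hV⟩, h⟩ := hyp k₁ hHT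
    · obtain ⟨R, hR, hR'⟩ := orb_root hχ T hz
      obtain ⟨g, hg⟩ := hgap k₁ (e.comp (algebraMap k₁ k)) z R (finrank ℚ k * M) hint hz0 hz1
        (hR.trans (hM ▸ Nat.mul_le_mul_right _ hT))
        (fun g hg => hR' g (by_contra fun h => hg (h1 g h))) (fun σ hσ => by_contra fun hσ' => by
          obtain ⟨u, hu, hu'⟩ := avoid e T hT _ hM1 (univ : Finset Unit) (fun _ => σ • e)
            fun _ _ h => hHo σ hσ' (h.mono (by
              have : #(univ : Finset Unit) ≤ m + 4 := by simp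
              exact (Nat.mul_le_mul_left _ (Nat.mul_le_mul_right _ this)).trans (Nat.le_succ _)))
          have h2 := h1 (u * σ) (by rw [mul_smul]; exact hu' () (mem_univ _))
          have h3 : (u * σ) z ^ p = z ^ p := by
            rw [← map_pow, AlgEquiv.mul_apply, mem_St.1 hσ, map_pow, mem_St.1 hu]
          have h4 := congrArg (fun y => ‖algebraMap Qb ℂ y‖) h3
          simp only [map_pow, norm_pow] at h4
          rw [show ‖algebraMap Qb ℂ ((u * σ) z)‖ = 1 from h2, one_pow] at h4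
          exact hz1 ((pow_eq_one_iff_of_nonneg (norm_nonneg _) hp.ne').1 h4.symm))
        (idx_tri (orb_top e).idx hM1) (by
          have := mul_le_mul_of_nonneg_right hrd (Nat.cast_nonneg (α := ℝ) M)
          push_cast
          linarith)
      refine absurd hg (not_lt.2 ?_)
      by_cases h : g • e ∈ T
      · refine (pow_le_pow_left₀ (norm_nonneg _) ((hcon₀ g h).trans (Real.exp_le_exp.2
          ((mul_le_of_le_one_right (lt_min hc (by positivity)).le ht1).trans
            (min_le_right _ _)))) p).trans ?_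
        rw [← Real.exp_nat_mul, mul_div_cancel₀ _ hp'.ne', Real.exp_log two_pos]
      · rw [h1 g h, one_pow]
        exact one_le_two
    refine key j D g _ hj hj' (fun n hn => funext fun a => ?_) hV (fun σ hσ a => hHT _ ?_)
      (h.imp_right fun h => h.trans (Nat.mul_le_mul_right _ (by omega)))
    · obtain ⟨u, hu, hu'⟩ := avoid e T hT _ hM1 (univ.erase a) (fun b => ((g a)⁻¹ * g b) • e)
        fun b hb h => hHo _ (fun h' => (mem_erase.1 hb).1 (hg (by
          rwa [mem_stabilizer_iff, mul_smul, inv_smul_eq_iff] at h'))) (h.mono (by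
          have : #(univ.erase a) ≤ m + 4 := (card_le_univ _).trans (by simpa using hj')
          exact (Nat.mul_le_mul_left _ (Nat.mul_le_mul_right _ this)).trans (Nat.le_succ _)))
      refine indep_of hz1 h1 g hn a (u * (g a)⁻¹) (by simpa using mem_St.1 hu) fun b hb =>
        Or.inl ?_
      rw [mul_assoc, mul_smul]
      exact hu' b (mem_erase.2 ⟨hb, mem_univ _⟩)
    · exact mem_stabilizer_iff.2 (by
        rw [mul_smul, mul_smul, inv_smul_eq_iff]; exact Subgroup.mem_iInf.1 hσ a)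

end Pool.Agent.Lib.MP_162bbe_gt.Mv
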